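import Pool.Agent.Helper40.MR.Defs

/-!
Project RG (rigidity, MP_7a8f48_an): definitions and statements of the modules.
The Matomaki-Radziwill theorem for arithmetic progressions modulo `q` (`q` fixed), with a saving
uniform in `q`.  Every module proves one `RG_X` from earlier ones, which are hypotheses of its
theorem (`theorem rg_X (h : RG_Y) ... : RG_X`).  The `ST_X` are the statements of helper40's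
project (all proved: `Pool.Agent.Helper40.MR.all_X`, `st_X`).
-/

open Finset MeasureTheory
open scoped BigOperators Nat

namespace Pool.Agent.Helper31.RG

open Pool.Agent.Helper40.MR

/-! ### Abstract systems of twists -/

/-- A system of twists: `ψ n ω` replaces `nit n t`. -/
structure Adm {Ω : Type} [MeasurableSpace Ω] (ψ : ℕ → Ω → ℂ) : Prop where
  mul : ∀ (m n : ℕ) (ω : Ω), m ≠ 0 → n ≠ 0 → ψ (m * n) ω = ψ m ω * ψ n ω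
  le : ∀ (n : ℕ) (ω : Ω), ‖ψ n ω‖ ≤ 1
  meas : ∀ n : ℕ, Measurable (ψ n)

/-- Twisted Dirichlet polynomial (replaces `DP`). -/
noncomputable def DPa {Ω : Type} (ψ : ℕ → Ω → ℂ) (s : Finset ℕ) (c : ℕ → ℂ) (ω : Ω) : ℂ :=
  ∑ n ∈ s, c n / n * ψ n ω

/-- Mean value theorem with constant `C` and length `T` (replaces `ST_MV`). -/
def MVa {Ω : Type} [MeasurableSpace Ω] (C T : ℝ) (μ : Measure Ω) (ψ : ℕ → Ω → ℂ) : Prop :=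
  ∀ (N : ℕ) (c : ℕ → ℂ),
    ∫ ω, ‖∑ n ∈ Icc 1 N, c n * ψ n ω‖ ^ 2 ∂μ ≤ C * (T + N) * ∑ n ∈ Icc 1 N, ‖c n‖ ^ 2

/-- Bounded measurable functions (replaces continuity). -/
def Bd {Ω : Type} [MeasurableSpace Ω] (E : Ω → ℂ) : Prop :=
  Measurable E ∧ ∃ B : ℝ, ∀ ω, ‖E ω‖ ≤ B

/-- All the polynomials over the classes are small at `ω` (replaces `Small`). -/
def Sma {Ω : Type} (ψ : ℕ → Ω → ℂ) (P Q H : ℝ) (f : ℕ → ℂ) (α : ℝ) (ω : Ω) : Prop :=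
  ∀ v ∈ Vs P Q H, ‖DPa ψ (Cls P Q H v) f ω‖ ≤ Real.exp (-(α * (v / H)))

/-- Moments of short prime polynomials times a long polynomial. -/
def RG_MOM : Prop := ∀ C₀ : ℝ, 0 < C₀ → ∃ C : ℝ, 0 < C ∧
  ∀ (Ω : Type) [MeasurableSpace Ω] (μ : Measure Ω) [IsFiniteMeasure μ] (ψ : ℕ → Ω → ℂ) (T : ℝ),
  Adm ψ → 1 ≤ T → MVa C₀ T μ ψ →
  ∀ (P : Finset ℕ) (Y M : ℝ) (l : ℕ) (f b : ℕ → ℂ),
  1 ≤ Y → 0 < M → (∀ p ∈ P, p.Prime ∧ Y < p ∧ (p : ℝ) ≤ Real.exp 1 * Y) →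
  (∀ n, ‖f n‖ ≤ 1) → (∀ n, ‖b n‖ ≤ 1) →
  ∫ ω, ‖DPa ψ P f ω‖ ^ (2 * l) * ‖DPa ψ (IocN M (2 * M)) b ω‖ ^ 2 ∂μ ≤
    C * (T / (Y ^ l * M) + 1) * (Real.exp (2 * l) * ((2 * l)! : ℕ))

/-- Ramare decomposition. -/
def RG_DEC : Prop := ∀ C₀ : ℝ, 0 < C₀ → ∃ C : ℝ, 0 < C ∧
  ∀ (Ω : Type) [MeasurableSpace Ω] (μ : Measure Ω) [IsFiniteMeasure μ] (ψ : ℕ → Ω → ℂ) (T : ℝ),
  Adm ψ → 1 ≤ T → MVa C₀ T μ ψ →
  ∀ (P Q H X : ℝ) (f : ℕ → ℂ) (s : ℕ → Prop),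
  2 ≤ P → P < Q → 1 ≤ H → 1 ≤ X → CM f → Inv P Q s → ∃ E : Ω → ℂ, Bd E ∧
  (∀ ω, DPa ψ (IocN X (2 * X)) (res (fun n => s n ∧ Hit P Q n) f) ω =
    ∑ v ∈ Vs P Q H, DPa ψ (Cls P Q H v) f ω *
      DPa ψ (IocN (X * Real.exp (-(v / H))) (2 * (X * Real.exp (-(v / H))))) (bco P Q f s) ω
      + E ω) ∧
  ∫ ω, ‖E ω‖ ^ 2 ∂μ ≤ C * (T / X + 1) * (1 / H + 1 / P + 1 / X)

/-- First region. -/
def RG_T0 : Prop := ∀ C₀ : ℝ, 0 < C₀ → ∃ C : ℝ, 0 < C ∧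
  ∀ (Ω : Type) [MeasurableSpace Ω] (μ : Measure Ω) [IsFiniteMeasure μ] (ψ : ℕ → Ω → ℂ) (T : ℝ),
  Adm ψ → 1 ≤ T → MVa C₀ T μ ψ →
  ∀ (P Q H X α : ℝ) (f : ℕ → ℂ) (s : ℕ → Prop),
  2 ≤ P → P < Q → 1 ≤ H → 1 ≤ X → 0 < α → α ≤ 1 → CM f → Inv P Q s →
  ∫ ω in {ω | Sma ψ P Q H f α ω},
      ‖DPa ψ (IocN X (2 * X)) (res (fun n => s n ∧ Hit P Q n) f) ω‖ ^ 2 ∂μ ≤
    C * (T / X + 1) * (1 / H + 1 / P + 1 / X) +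
    C * (H * Real.log Q + 1) ^ 2 * P ^ (-(2 * α)) * (T * Q / X + 1)

/-- Intermediate regions. -/
def RG_TJ : Prop := ∀ C₀ : ℝ, 0 < C₀ → ∃ C : ℝ, 0 < C ∧
  ∀ (Ω : Type) [MeasurableSpace Ω] (μ : Measure Ω) [IsFiniteMeasure μ] (ψ : ℕ → Ω → ℂ) (T : ℝ),
  Adm ψ → 1 ≤ T → MVa C₀ T μ ψ →
  ∀ (P' Q' H' α' P Q H α X : ℝ) (f : ℕ → ℂ) (s : ℕ → Prop),
  0 < P' → 2 ≤ Real.log P' → P' < Q' → 1 ≤ H' → 0 < α' →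
  2 ≤ P → P < Q → 1 ≤ H → α' < α → α ≤ 1 → 1 ≤ Real.log Q →
  4 * (Real.log (Real.log Q) + 3) ≤ (α - α') * Real.log P' →
  1 ≤ X → CM f → Inv P Q s →
  ∫ ω in {ω | Sma ψ P Q H f α ω ∧ ¬ Sma ψ P' Q' H' f α' ω},
      ‖DPa ψ (IocN X (2 * X)) (res (fun n => s n ∧ Hit P Q n) f) ω‖ ^ 2 ∂μ ≤
    C * (T / X + 1) * (1 / H + 1 / P + 1 / X + (H * Real.log Q + 1) ^ 2 *
      (H' * Real.log Q' + 1) * Real.exp (-((α - α') * Real.log P) + 2 * α' * Real.log Q' +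
        2 * Real.log (Real.log Q)))

/-- The chain of the regions. -/
def RG_CH : Prop := ∀ C₀ : ℝ, 0 < C₀ → ∃ C : ℝ, 0 < C ∧
  ∀ (Ω : Type) [MeasurableSpace Ω] (μ : Measure Ω) [IsFiniteMeasure μ] (ψ : ℕ → Ω → ℂ) (T : ℝ),
  Adm ψ → 1 ≤ T → MVa C₀ T μ ψ →
  ∀ (P Q H α : ℕ → ℝ) (J : ℕ) (X : ℝ) (f : ℕ → ℂ) (s : ℕ → Prop),
  0 < P 0 → (∀ j ≤ J, 2 ≤ Real.log (P j) ∧ P j < Q j ∧ 1 ≤ H j) →
  (∀ j < J, Q j ≤ P (j + 1) ∧ α j < α (j + 1) ∧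
    4 * (Real.log (Real.log (Q (j + 1))) + 3) ≤ (α (j + 1) - α j) * Real.log (P j)) →
  0 < α 0 → α J ≤ 1 → 1 ≤ X → CM f → (∀ j ≤ J, Inv (P j) (Q j) s) →
  ∫ ω, ‖DPa ψ (IocN X (2 * X))
      (res (fun n => (∀ j ∈ range (J + 1), Hit (P j) (Q j) n) ∧ s n) f) ω‖ ^ 2 ∂μ ≤
    C * (T / X + 1) * ∑ j ∈ range (J + 1), (1 / H j + 1 / P j + 1 / X) +
    C * (H 0 * Real.log (Q 0) + 1) ^ 2 * (P 0) ^ (-(2 * α 0)) * (T * Q 0 / X + 1) +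
    C * (T / X + 1) * ∑ j ∈ range J, (H (j + 1) * Real.log (Q (j + 1)) + 1) ^ 2 *
      (H j * Real.log (Q j) + 1) * Real.exp (-((α (j + 1) - α j) * Real.log (P (j + 1))) +
        2 * α j * Real.log (Q j) + 2 * Real.log (Real.log (Q (j + 1)))) +
    ∫ ω in {ω | ¬ Sma ψ (P J) (Q J) (H J) f (α J) ω},
      ‖DPa ψ (IocN X (2 * X))
        (res (fun n => (∀ j ∈ range (J + 1), Hit (P j) (Q j) n) ∧ s n) f) ω‖ ^ 2 ∂μ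

/-! ### Characters modulo `q` -/

/-- Mean value theorem in a residue class. -/
def RG_MVC : Prop := ∃ C : ℝ, 0 < C ∧ ∀ (q a N : ℕ) (T : ℝ) (c : ℕ → ℂ), 1 ≤ q → 1 ≤ T →
  ∫ t in (-T)..T, ‖∑ n ∈ (Icc 1 N).filter (fun n => n % q = a), c n * nit n t‖ ^ 2 ≤
    C * (T + N / q) * ∑ n ∈ (Icc 1 N).filter (fun n => n % q = a), ‖c n‖ ^ 2

/-- Orthogonality of the characters. -/
def RG_ORT : Prop := ∀ (q : ℕ) [NeZero q] (s : Finset ℕ) (a : ℕ → ℂ),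
  (∀ n ∈ s, ¬ Nat.Coprime n q → a n = 0) →
  ∑ χ : DirichletCharacter ℂ q, ‖∑ n ∈ s, a n * χ n‖ ^ 2 =
    (Nat.totient q : ℝ) * ∑ r ∈ range q, ‖∑ n ∈ s.filter (fun n => n % q = r), a n‖ ^ 2

/-- Hybrid mean value theorem. -/
def RG_MVQ : Prop := ∃ C : ℝ, 0 < C ∧ ∀ (q N : ℕ) [NeZero q] (T : ℝ) (c : ℕ → ℂ), 1 ≤ T →
  (q : ℝ) / Nat.totient q * ∑ χ : DirichletCharacter ℂ q,
    ∫ t in (-T)..T, ‖∑ n ∈ Icc 1 N, c n * χ n * nit n t‖ ^ 2 ≤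
    C * (q * T + N) * ∑ n ∈ Icc 1 N, ‖c n‖ ^ 2

/-- Discrete sigma-algebra on the set of characters. -/
instance instMS (q : ℕ) : MeasurableSpace (DirichletCharacter ℂ q) := ⊤

/-- The measure on (characters modulo `q`) x `[-T, T]`: `q / φ(q)` times counting x Lebesgue. -/
noncomputable def msq (q : ℕ) (T : ℝ) : Measure (DirichletCharacter ℂ q × ℝ) :=
  ENNReal.ofReal ((q : ℝ) / Nat.totient q) •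
    ((Measure.count : Measure (DirichletCharacter ℂ q)).prod (volume.restrict (Set.Icc (-T) T)))

/-- The twists `χ(n) n^(-i t)`. -/
noncomputable def psq (q : ℕ) (n : ℕ) (ω : DirichletCharacter ℂ q × ℝ) : ℂ := ω.1 n * nit n ω.2

/-- The system of the characters modulo `q` is admissible; formulas for the integrals. -/
def RG_SYS : Prop := ∀ (q : ℕ) [NeZero q] (T : ℝ), 0 ≤ T → IsFiniteMeasure (msq q T) ∧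
  Adm (psq q) ∧
  (∀ f : DirichletCharacter ℂ q → ℝ → ℝ, (∀ χ, Continuous (f χ)) →
    ∫ ω, f ω.1 ω.2 ∂(msq q T) =
      (q : ℝ) / Nat.totient q * ∑ χ : DirichletCharacter ℂ q, ∫ t in (-T)..T, f χ t) ∧
  ∀ (f : DirichletCharacter ℂ q → ℝ → ℝ) (U : DirichletCharacter ℂ q → Set ℝ),
    (∀ χ, Continuous (f χ)) → (∀ χ, MeasurableSet (U χ)) →
    ∫ ω in {ω | ω.2 ∈ U ω.1}, f ω.1 ω.2 ∂(msq q T) =
      (q : ℝ) / Nat.totient q * ∑ χ : DirichletCharacter ℂ q,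
        ∫ t in {t | t ∈ Set.Icc (-T) T ∧ t ∈ U χ}, f χ t

/-- The function `lam` on the integers coprime to `r`. -/
noncomputable def lamr (r n : ℕ) : ℂ := if Nat.Coprime n r then lam n else 0

/-- The Moebius function on the integers coprime to `r`. -/
noncomputable def mur (r n : ℕ) : ℂ :=
  if Nat.Coprime n r then (ArithmeticFunction.moebius n : ℂ) else 0

/-- The Matomaki-Radziwill theorem for Dirichlet polynomials and all characters modulo `q`. -/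
def RG_MR : Prop := ∀ K θ₁ θ₂ : ℝ, 2 ≤ K → 0 < θ₁ → θ₁ < θ₂ → θ₂ ≤ 1 / 4 →
  ∃ κ : ℝ, 0 < κ ∧ ∃ L₀ : ℝ, ∀ L : ℝ, L₀ ≤ L →
  ∀ (q r : ℕ) [NeZero q], 1 ≤ r → q ∣ r → ∃ Z₀ : ℝ, ∀ Z X T : ℝ, Z₀ ≤ Z →
  Z / L ≤ X → X ≤ Z → 1 ≤ T → q * T ≤ X →
  (q : ℝ) / Nat.totient q * ∑ χ : DirichletCharacter ℂ q, ∫ t in (-T)..T,
    ‖DP (IocN X (2 * X)) (res (SS K (Real.log L / (4 * K)) θ₁ θ₂ Z)
      (fun n => lamr r n * χ n)) t‖ ^ 2 ≤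
    (q * T * L ^ (1 / 4 : ℝ) / X + 1) * L ^ (-κ)

/-! ### Short intervals and windows in arithmetic progressions -/

/-- From mean squares of Dirichlet polynomials to short intervals in residue classes. -/
def RG_PL : Prop := ∃ C : ℝ, 0 < C ∧ ∀ (q : ℕ) [NeZero q] (X h E B : ℝ) (a : ℕ → ℂ),
  (∀ n, ‖a n‖ ≤ 1) → (∀ n, ¬ Nat.Coprime n q → a n = 0) →
  1 ≤ B → B ≤ h → q * h ≤ X → 0 ≤ E → E ≤ 1 →
  (∀ T, 1 ≤ T → q * T ≤ X → (q : ℝ) / Nat.totient q * ∑ χ : DirichletCharacter ℂ q,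
    ∫ t in (-T)..T, ‖DP (IocN X (2 * X)) (fun n => a n * χ n) t‖ ^ 2 ≤
      (q * T * B / X + 1) * E) →
  ∑ r ∈ range q, ∫ u : ℝ, ‖∑ n ∈ (IocN X (2 * X)).filter
      (fun n : ℕ => n % q = r ∧ u < Real.log n ∧ Real.log n ≤ u + q * h / X), a n‖ ≤
    C * (q * h) * (Real.sqrt E + 1 / h)

/-- From windows to short multiplicative intervals. -/
def RG_WIN : Prop := ∃ C : ℝ, 0 < C ∧ ∀ (q : ℕ) (X δ : ℝ) (L : ℕ) (b : ℕ → ℂ), 1 ≤ q →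
  (∀ n, ‖b n‖ ≤ 1) → 0 < δ → δ ≤ 1 → 1 ≤ X → (q : ℝ) * L ≤ X →
  (∀ n : ℕ, (n : ℝ) ≤ X ∨ 2 * X < n → b n = 0) →
  ∑ m ∈ range (⌊2 * X⌋₊ + 1), ‖∑ j ∈ range L, b (m + q * j)‖ ≤
    L / δ * (∑ r ∈ range q, ∫ u : ℝ, ‖∑ n ∈ (IocN X (2 * X)).filter
      (fun n : ℕ => n % q = r ∧ u < Real.log n ∧ Real.log n ≤ u + δ), b n‖) +
    C * X * (X * δ / q + 1)

/-- The Liouville function in windows of progressions. -/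
def RG_AP : Prop := ∀ K θ₁ θ₂ : ℝ, 2 ≤ K → 0 < θ₁ → θ₁ < θ₂ → θ₂ ≤ 1 / 4 →
  ∃ κ : ℝ, 0 < κ ∧ ∃ L₀ : ℝ, ∀ L : ℝ, L₀ ≤ L →
  ∀ q r : ℕ, 1 ≤ q → 1 ≤ r → q ∣ r → ∃ Z₀ : ℝ, ∀ (Z X : ℝ) (L' : ℕ), Z₀ ≤ Z →
  Z / L ^ κ ≤ X → X ≤ Z → L ^ (9 / 10 : ℝ) ≤ L' → (L' : ℝ) ≤ L →
  ∑ m ∈ range (⌊2 * X⌋₊ + 1), ‖∑ j ∈ range L',
      res (fun n => X < n ∧ (n : ℝ) ≤ 2 * X ∧ SS K (Real.log L / (4 * K)) θ₁ θ₂ Z n)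
        (lamr r) (m + q * j)‖ ≤ X * L' * L ^ (-κ)

/-- The same for the Moebius function. -/
def RG_MU : Prop := ∀ K θ₁ θ₂ : ℝ, 2 ≤ K → 0 < θ₁ → θ₁ < θ₂ → θ₂ ≤ 1 / 4 →
  ∃ κ : ℝ, 0 < κ ∧ ∃ L₀ : ℕ, ∀ L : ℕ, L₀ ≤ L →
  ∀ q r : ℕ, 1 ≤ q → 1 ≤ r → q ∣ r → ∃ Z₀ : ℝ, ∀ Z X : ℝ, Z₀ ≤ Z →
  Z / (L : ℝ) ^ κ ≤ X → X ≤ Z →
  ∑ m ∈ range (⌊2 * X⌋₊ + 1), ‖∑ j ∈ range L,
      res (fun n => X < n ∧ (n : ℝ) ≤ 2 * X ∧ SS K (Real.log L / (4 * K)) θ₁ θ₂ Z n)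
        (mur r) (m + q * j)‖ ≤ X * (L : ℝ) ^ (1 - κ)

/-! ### Densities -/

/-- Upper bound sieve (for `X` at least as large as the primes). -/
def RG_HT : Prop := ∃ C : ℝ, 0 < C ∧ ∀ (S : Finset ℕ) (X : ℝ), 1 ≤ X →
  (∀ p ∈ S, p.Prime ∧ (p : ℝ) ≤ X) →
  (((Icc 1 ⌊X⌋₊).filter (fun n => ∀ p ∈ S, ¬ p ∣ n)).card : ℝ) ≤
    C * X * ∏ p ∈ S, (1 - 1 / (p : ℝ))

open Classical in
/-- Integers coprime to `q` without prime factors in `(P, Q]`. -/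
def RG_DENS : Prop := ∃ C : ℝ, 0 < C ∧ ∀ (q : ℕ) (P Q X A : ℝ), 1 ≤ q → 2 ≤ P → P < Q → Q ≤ X →
  (q : ℝ) ≤ X → ∑ p ∈ q.primeFactors.filter (fun p : ℕ => P < p), 1 / (p : ℝ) ≤ A →
  (((Icc 1 ⌊X⌋₊).filter (fun n => Nat.Coprime n q ∧ ¬ Hit P Q n)).card : ℝ) ≤
    C * Real.exp A * ((Nat.totient q : ℝ) / q) * (Real.log P / Real.log Q) * X

open Classical in
/-- Density of the typical integers, relative to the integers coprime to `q`. -/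
def RG_DS : Prop := ∀ ε A : ℝ, 0 < ε → ∃ K θ₁ θ₂ : ℝ, 2 ≤ K ∧ 0 < θ₁ ∧ θ₁ < θ₂ ∧
  θ₂ ≤ 1 / 4 ∧ ∃ L₀ : ℝ, ∀ L : ℝ, L₀ ≤ L → ∀ q : ℕ, 1 ≤ q →
  ∑ p ∈ q.primeFactors.filter (fun p : ℕ => Real.log L < p), 1 / (p : ℝ) ≤ A →
  ∃ Z₀ : ℝ, ∀ Z : ℝ, Z₀ ≤ Z →
  (((Icc 1 ⌊Z⌋₊).filter (fun n => Nat.Coprime n q ∧
    ¬ SS K (Real.log L / (4 * K)) θ₁ θ₂ Z n)).card : ℝ) ≤
    ε * ((Nat.totient q : ℝ) / q) * Z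

/-- The final number theoretic statement. -/
def RG_NT : Prop := ∀ ε A : ℝ, 0 < ε → ∃ L₀ : ℕ, ∀ L : ℕ, L₀ ≤ L → ∀ q : ℕ, 1 ≤ q →
  ∑ p ∈ q.primeFactors.filter (fun p : ℕ => Real.log L < p), 1 / (p : ℝ) ≤ A →
  ∃ N₀ : ℕ, ∀ N : ℕ, N₀ ≤ N →
  ∑ m ∈ range N, |∑ j ∈ range L, (ArithmeticFunction.moebius (m + q * j) : ℝ)| ≤ ε * L * N

end Pool.Agent.Helper31.RG
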