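import Pool.Agent.Helper67.RG.GStmts

set_option autoImplicit false

namespace Pool.Agent.Helper31.RG

open Pool.Agent.Helper67.RG MvPolynomial

section general

variable {g d : ℕ} {A : Type} [CommRing A] [Algebra ℂ A] (F : Family g d A)

/-- An element of `I • N` is killed by every additive map that kills `a • x` for `a ∈ I`. -/
theorem sec_sp_zero {R : Type} [CommRing R] (N : Submodule A F.R) (I : Ideal A)
    (φ : F.R →+* R) (h : ∀ a ∈ I, φ (algebraMap A F.R a) = 0) (x : F.R) (hx : x ∈ I • N) :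
    φ x = 0 := by
  refine Submodule.smul_induction_on hx ?_ ?_
  · intro a ha n _
    rw [Algebra.smul_def, map_mul, h a ha, zero_mul]
  · intro x y hx hy
    rw [map_add, hx, hy, add_zero]

theorem sec_mem_pi {P : Type} [AddCommGroup P] [Module A P] {ι : Type} [Fintype ι] (I : Ideal A)
    (c : ι → P) (h : ∀ i, c i ∈ I • (⊤ : Submodule A P)) :
    c ∈ I • (⊤ : Submodule A (ι → P)) := by
  classical
  have hc : c = ∑ i, LinearMap.single A (fun _ => P) i (c i) := by
    funext k
    simp [Finset.sum_apply, LinearMap.single_apply, Pi.single_apply]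
  rw [hc]
  refine Submodule.sum_mem _ fun i _ => ?_
  have h1 := Submodule.mem_map_of_mem (f := LinearMap.single A (fun _ => P) i) (h i)
  rw [Submodule.map_smul''] at h1
  exact Submodule.smul_mono le_rfl le_top h1

/-- The fibre maps of `ι → gr m`. -/
noncomputable def fm (ι : Type) [Fintype ι] (m : ℕ) (hm : F.n0 ≤ m) : FM A (ι → F.gr m) where
  V b := ι → (F.fib b).gr m
  pi b :=
    { toFun := fun c i => ⟨F.sp b (c i), F.sp_gr b m _ (c i).2⟩
      map_zero' := by
        funext i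
        ext
        simp
      map_add' := by
        intro c c'
        funext i
        ext
        simp }
  pi_smul := by
    intro b a p
    funext i
    ext
    show F.sp b ((a • p i : F.gr m) : F.R) = b a • F.sp b (p i)
    rw [Submodule.coe_smul, Algebra.smul_def, map_mul, F.sp_alg, Algebra.smul_def]
  surj := by
    intro b w
    choose x hx hx' using fun i => F.sp_surj b m hm (w i) (w i).2
    refine ⟨fun i => ⟨x i, hx i⟩, ?_⟩
    funext i
    ext
    exact hx' i
  ker := by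
    intro b p hp
    refine sec_mem_pi _ _ fun i => ?_
    rw [Submodule.mem_smul_top_iff]
    refine F.sp_ker b m hm _ (p i).2 ?_
    have := congrArg Subtype.val (congrFun hp i)
    exact this

/-- The map `c ↦ (c_k e_l - c_l e_k)`. -/
noncomputable def al (m n r : ℕ) (hr : m + n = r) {K : ℕ} (e : Fin K → F.gr n) :
    (Fin K → F.gr m) →ₗ[A] (Fin K × Fin K → F.gr r) where
  toFun c p := ⟨(c p.1 : F.R) * e p.2 - (c p.2 : F.R) * e p.1, by
    subst hr
    exact Submodule.sub_mem _ (SetLike.mul_mem_graded (c p.1).2 (e p.2).2)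
      (SetLike.mul_mem_graded (c p.2).2 (e p.1).2)⟩
  map_add' := by
    intro c c'
    funext p
    ext
    show ((c p.1 : F.R) + c' p.1) * e p.2 - ((c p.2 : F.R) + c' p.2) * e p.1 =
      ((c p.1 : F.R) * e p.2 - (c p.2 : F.R) * e p.1) +
      ((c' p.1 : F.R) * e p.2 - (c' p.2 : F.R) * e p.1)
    ring
  map_smul' := by
    intro a c
    funext p
    ext
    show (a • (c p.1 : F.R)) * e p.2 - (a • (c p.2 : F.R)) * e p.1 =
      a • ((c p.1 : F.R) * e p.2 - (c p.2 : F.R) * e p.1)
    rw [smul_sub, smul_mul_assoc, smul_mul_assoc]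

/-- The map `c ↦ (c_k e_l - c_l e_k)` in a pair. -/
noncomputable def alY (Y : Pair g d) (m n r : ℕ) (hr : m + n = r) {K : ℕ} (e : Fin K → Y.gr n) :
    (Fin K → Y.gr m) →ₗ[ℂ] (Fin K × Fin K → Y.gr r) where
  toFun c p := ⟨(c p.1 : Y.R) * e p.2 - (c p.2 : Y.R) * e p.1, by
    subst hr
    exact Submodule.sub_mem _ (SetLike.mul_mem_graded (c p.1).2 (e p.2).2)
      (SetLike.mul_mem_graded (c p.2).2 (e p.1).2)⟩
  map_add' := by
    intro c c'
    funext p
    ext
    show ((c p.1 : Y.R) + c' p.1) * e p.2 - ((c p.2 : Y.R) + c' p.2) * e p.1 =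
      ((c p.1 : Y.R) * e p.2 - (c p.2 : Y.R) * e p.1) +
      ((c' p.1 : Y.R) * e p.2 - (c' p.2 : Y.R) * e p.1)
    ring
  map_smul' := by
    intro a c
    funext p
    ext
    show (a • (c p.1 : Y.R)) * e p.2 - (a • (c p.2 : Y.R)) * e p.1 =
      a • ((c p.1 : Y.R) * e p.2 - (c p.2 : Y.R) * e p.1)
    rw [smul_sub, smul_mul_assoc, smul_mul_assoc]

/-- The images of the generators in the fibre. -/
noncomputable def eb {n K : ℕ} (e : Fin K → F.gr n) (b : A →ₐ[ℂ] ℂ) (k : Fin K) :
    (F.fib b).gr n := ⟨F.sp b (e k), F.sp_gr b n _ (e k).2⟩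

theorem al_comm (m n r : ℕ) (hr : m + n = r) (hm : F.n0 ≤ m) (hr' : F.n0 ≤ r) {K : ℕ}
    (e : Fin K → F.gr n) (b : A →ₐ[ℂ] ℂ) (p : Fin K → F.gr m) :
    alY (F.fib b) m n r hr (eb F e b) ((fm F (Fin K) m hm).pi b p) =
      (fm F (Fin K × Fin K) r hr').pi b (al F m n r hr e p) := by
  funext q
  ext
  show F.sp b (p q.1) * F.sp b (e q.2) - F.sp b (p q.2) * F.sp b (e q.1) =
    F.sp b ((p q.1 : F.R) * e q.2 - (p q.2 : F.R) * e q.1)
  rw [map_sub, map_mul, map_mul]

theorem fm_fin {P : Type} [AddCommGroup P] [Module A P] [Module.Finite A P] (FP : FM A P)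
    (b : A →ₐ[ℂ] ℂ) : Module.Finite ℂ (FP.V b) := by
  classical
  obtain ⟨S, hS⟩ := (Module.finite_def (R := A) (M := P)).1 inferInstance
  refine Module.finite_def.2 ⟨S.image (FP.pi b), ?_⟩
  rw [eq_top_iff]
  rintro v -
  obtain ⟨p, rfl⟩ := FP.surj b v
  have hp : p ∈ Submodule.span A (S : Set P) := hS ▸ Submodule.mem_top
  refine Submodule.span_induction ?_ ?_ ?_ ?_ hp
  · intro x hx
    exact Submodule.subset_span (Finset.mem_coe.2 (Finset.mem_image_of_mem _ hx))
  · rw [map_zero]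
    exact Submodule.zero_mem _
  · intro x y _ _ hx hy
    rw [map_add]
    exact Submodule.add_mem _ hx hy
  · intro a x _ hx
    rw [FP.pi_smul]
    exact Submodule.smul_mem _ _ hx

end general

/-! ### In a pair -/

section pair

variable {g d : ℕ} (Y : Pair g d)

/-- `z ↦ (z e_k)_k`. -/
noncomputable def mulE (j n m : ℕ) (hm : n + j = m) {K : ℕ} (e : Fin K → Y.gr n) :
    Y.gr j →ₗ[ℂ] (Fin K → Y.gr m) where
  toFun z k := ⟨(z : Y.R) * e k, by
    subst hm
    rw [mul_comm]
    exact SetLike.mul_mem_graded (e k).2 z.2⟩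
  map_add' := by
    intro z z'
    funext k
    ext
    show ((z : Y.R) + z') * e k = (z : Y.R) * e k + (z' : Y.R) * e k
    ring
  map_smul' := by
    intro a z
    funext k
    ext
    show (a • (z : Y.R)) * e k = a • ((z : Y.R) * e k)
    rw [smul_mul_assoc]

theorem mulE_mem (j n m r : ℕ) (hm : n + j = m) (hr : m + n = r) {K : ℕ} (e : Fin K → Y.gr n)
    (z : Y.gr j) : mulE Y j n m hm e z ∈ LinearMap.ker (alY Y m n r hr e) := by
  rw [LinearMap.mem_ker]
  funext p
  ext
  show ((z : Y.R) * e p.1) * e p.2 - ((z : Y.R) * e p.2) * e p.1 = 0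
  ring

theorem mulE_inj (j n m : ℕ) (hm : n + j = m) {K : ℕ} (e : Fin K → Y.gr n) (k0 : Fin K)
    (h0 : (e k0 : Y.R) ≠ 0) : Function.Injective (mulE Y j n m hm e) := by
  rw [← LinearMap.ker_eq_bot, LinearMap.ker_eq_bot']
  intro z hz
  have h1 : (z : Y.R) * e k0 = 0 := congrArg Subtype.val (congrFun hz k0)
  ext
  exact (mul_eq_zero.1 h1).resolve_right h0

theorem mulE_surj (j n m r : ℕ) (hm : n + j = m) (hr : m + n = r) {K : ℕ} (e : Fin K → Y.gr n)
    (k0 : Fin K) (h0 : (e k0 : Y.R) ≠ 0) (hfin : Module.Finite ℂ (Fin K → Y.gr m))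
    (h : Module.finrank ℂ (LinearMap.ker (alY Y m n r hr e)) ≤ Module.finrank ℂ (Y.gr j))
    (w : Fin K → Y.gr m) (hw : w ∈ LinearMap.ker (alY Y m n r hr e)) :
    ∃ z : Y.gr j, mulE Y j n m hm e z = w := by
  have hle : LinearMap.range (mulE Y j n m hm e) ≤ LinearMap.ker (alY Y m n r hr e) := by
    rintro _ ⟨z, rfl⟩
    exact mulE_mem Y j n m r hm hr e z
  have hdim : Module.finrank ℂ (LinearMap.range (mulE Y j n m hm e)) =
      Module.finrank ℂ (Y.gr j) := LinearMap.finrank_range_of_inj (mulE_inj Y j n m hm e k0 h0)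
  have heq := Submodule.eq_of_le_of_finrank_le hle (hdim ▸ h)
  rw [← heq] at hw
  exact hw

/-- A quotient of homogeneous elements in `Y` can be chosen homogeneous. -/
theorem homog_div {n j : ℕ} (e c : Y.R) (he : e ∈ Y.gr n) (hc : c ∈ Y.gr (n + j)) (h : e ∣ c) :
    ∃ z ∈ Y.gr j, c = e * z := by
  obtain ⟨w, hw⟩ := h
  refine ⟨DirectSum.decompose Y.gr w j, SetLike.coe_mem _, ?_⟩
  have h1 := DirectSum.coe_decompose_mul_add_of_left_mem (𝒜 := Y.gr) (b := w) (j := j) he
  rw [← hw, DirectSum.decompose_of_mem_same _ hc] at h1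
  exact h1

theorem fact2 (X : Pair g d) (E : Ex X.R X.gr) {n j K : ℕ} (ε : Fin K → X.gr n) (k0 : Fin K)
    (h0 : (ε k0 : X.R) ≠ 0)
    (hspan : ∀ t ∈ X.gr n, ∃ a : Fin K → ℂ, t = ∑ k, a k • (ε k : X.R))
    (γ : Fin K → X.gr (n + j)) (h : ∀ k l, (γ k : X.R) * ε l = (γ l : X.R) * ε k) :
    ∃ z ∈ X.gr j, ∀ k, (γ k : X.R) = z * ε k := by
  have hpow : ∀ i, E.x i ^ n ∈ X.gr n := fun i => by
    have := SetLike.pow_mem_graded n (E.x_mem i)
    simpa using this
  have hdiv : ∀ i, (ε k0 : X.R) ∣ (γ k0 : X.R) * E.x i ^ n := by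
    intro i
    obtain ⟨a, ha⟩ := hspan _ (hpow i)
    refine ⟨∑ k, a k • (γ k : X.R), ?_⟩
    rw [ha, Finset.mul_sum, Finset.mul_sum]
    refine Finset.sum_congr rfl fun k _ => ?_
    rw [mul_smul_comm, mul_smul_comm, h k0 k, mul_comm]
  obtain ⟨z, hz, hz'⟩ := homog_div X (ε k0 : X.R) (γ k0) (ε k0).2 (γ k0).2
    (E.good _ _ n h0 (hdiv 0) (hdiv 1))
  refine ⟨z, hz, fun k => ?_⟩
  have h1 := h k0 k
  rw [hz'] at h1
  apply mul_right_cancel₀ h0
  rw [← h1]
  ring

end pair

theorem proj_pi {A M ι : Type} [CommRing A] [AddCommGroup M] [Module A M] [Module.Projective A M]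
    [Finite ι] : Module.Projective A (ι → M) := by
  classical
  have := Fintype.ofFinite ι
  exact Module.Projective.of_equiv (DFinsupp.linearEquivFunOnFintype (R := A) (M := fun _ : ι => M))

theorem sec_surj {V W : Type} [AddCommGroup V] [Module ℂ V] [AddCommGroup W] [Module ℂ W]
    (h1 : Module.Finite ℂ V) (h2 : Module.Finite ℂ W) (f : V →ₗ[ℂ] W)
    (h : Module.finrank ℂ V = Module.finrank ℂ W) (hf : Function.Injective f) :
    Function.Surjective f :=
  (LinearMap.injective_iff_surjective_of_finrank_eq_finrank h).1 hf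

theorem st_SEC (hR : ST_RANK) (hS : ST_SEMI) : ST_SEC := by
  intro g d X E A _ _ _ _ F b0 S h12
  classical
  obtain ⟨n, hn⟩ : ∃ n, F.n0 ≤ n := ⟨F.n0, le_rfl⟩
  have hn1 : F.n0 ≤ n + 1 := by omega
  have hn2 : F.n0 ≤ n + 2 := by omega
  have hn3 : F.n0 ≤ n + 1 + n := by omega
  have hn4 : F.n0 ≤ n + 2 + n := by omega
  have := F.fin n hn
  have := F.proj n hn
  have := F.fin (n + 1) hn1
  have := F.proj (n + 1) hn1
  have := F.fin (n + 2) hn2
  have := F.proj (n + 2) hn2
  have := F.fin (n + 1 + n) hn3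
  have := F.proj (n + 1 + n) hn3
  have := F.fin (n + 2 + n) hn4
  have := F.proj (n + 2 + n) hn4
  obtain ⟨K, e, he⟩ := Module.Finite.exists_fin (R := A) (M := F.gr n)
  have haS : ∀ a ∈ RingHom.ker b0, S.sp (algebraMap A F.R a) = 0 := fun a ha => by
    rw [S.alg, (RingHom.mem_ker).1 ha, map_zero]
  have haF : ∀ b : A →ₐ[ℂ] ℂ, ∀ a ∈ RingHom.ker b, F.sp b (algebraMap A F.R a) = 0 :=
    fun b a ha => by
      rw [F.sp_alg, (RingHom.mem_ker).1 ha, map_zero]
  have hSF : ∀ m, F.n0 ≤ m → ∀ x ∈ F.gr m, (F.sp b0 x = 0 ↔ S.sp x = 0) := fun m hm x hx =>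
    ⟨fun h => sec_sp_zero F _ _ _ haS x (F.sp_ker b0 m hm x hx h),
      fun h => sec_sp_zero F _ _ _ (haF b0) x (S.ker m hm x hx h)⟩
  -- the generators
  have hgen : ∀ x ∈ F.gr n, ∃ c : Fin K → A, x = ∑ k, c k • (e k : F.R) := by
    intro x hx
    have h1 : (⟨x, hx⟩ : F.gr n) ∈ Submodule.span A (Set.range e) := he ▸ Submodule.mem_top
    obtain ⟨c, hc⟩ := (Submodule.mem_span_range_iff_exists_fun A).1 h1
    refine ⟨c, ?_⟩
    have h2 := congrArg Subtype.val hc
    simpa using h2.symm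
  have hspanX : ∀ t ∈ X.gr n, ∃ a : Fin K → ℂ, t = ∑ k, a k • S.sp (e k) := by
    intro t ht
    obtain ⟨x, hx, rfl⟩ := S.surj n hn t ht
    obtain ⟨c, hc⟩ := hgen x hx
    refine ⟨fun k => b0 (c k), ?_⟩
    rw [hc, map_sum]
    refine Finset.sum_congr rfl fun k _ => ?_
    rw [Algebra.smul_def, map_mul, S.alg, Algebra.smul_def]
  have hx0 : E.x 0 ≠ 0 := E.x_ind.ne_zero 0
  obtain ⟨k0, hk0⟩ : ∃ k0, S.sp (e k0) ≠ 0 := by
    by_contra hcon
    push Not at hcon
    have hpow : E.x 0 ^ n ∈ X.gr n := by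
      have := SetLike.pow_mem_graded n (E.x_mem 0)
      simpa using this
    obtain ⟨a, ha⟩ := hspanX _ hpow
    exact pow_ne_zero n hx0 (by rw [ha]; simp [hcon])
  -- the function `f0`
  obtain ⟨f0, hf0, hf0'⟩ : ∃ f0 : A, b0 f0 ≠ 0 ∧ ∀ b : A →ₐ[ℂ] ℂ, b f0 ≠ 0 →
      F.sp b (e k0) ≠ 0 := by
    obtain ⟨h, ff, gg, -, -, hfg⟩ := Module.Finite.exists_comp_eq_id_of_projective A (F.gr n)
    have h1 : ∃ i, b0 (gg (e k0) i) ≠ 0 := by
      by_contra hcon
      push Not at hcon
      apply hk0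
      have h2 : gg (e k0) ∈ RingHom.ker b0 • (⊤ : Submodule A (Fin h → A)) := by
        refine sec_mem_pi _ _ fun i => ?_
        have : gg (e k0) i = gg (e k0) i • (1 : A) := by simp
        rw [this]
        exact Submodule.smul_mem_smul ((RingHom.mem_ker).2 (hcon i)) Submodule.mem_top
      have h3 := Submodule.mem_map_of_mem (f := ff) h2
      rw [Submodule.map_smul''] at h3
      have h4 : ff (gg (e k0)) = e k0 := by
        have := LinearMap.congr_fun hfg (e k0)
        simpa using this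
      rw [h4] at h3
      have h5 : e k0 ∈ RingHom.ker b0 • (⊤ : Submodule A (F.gr n)) :=
        Submodule.smul_mono le_rfl le_top h3
      rw [Submodule.mem_smul_top_iff] at h5
      exact sec_sp_zero F _ _ _ haS _ h5
    obtain ⟨i, hi⟩ := h1
    refine ⟨gg (e k0) i, hi, fun b hb hcon => hb ?_⟩
    have h5 : e k0 ∈ RingHom.ker b • (⊤ : Submodule A (F.gr n)) := by
      rw [Submodule.mem_smul_top_iff]
      exact F.sp_ker b n hn _ (e k0).2 hcon
    have h6 := Submodule.mem_map_of_mem (f := (LinearMap.proj i).comp gg) h5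
    rw [Submodule.map_smul''] at h6
    have h7 : ((LinearMap.proj i).comp gg) (e k0) ∈ RingHom.ker b := by
      have h8 : RingHom.ker b • Submodule.map ((LinearMap.proj i).comp gg) ⊤ ≤
          RingHom.ker b • (⊤ : Submodule A A) := Submodule.smul_mono le_rfl le_top
      have h9 := h8 h6
      rw [smul_eq_mul, Ideal.mul_top] at h9
      exact h9
    exact (RingHom.mem_ker).1 h7
  -- lifts of `z e_k`
  have hlift : ∀ (j : ℕ) (z : X.R), z ∈ X.gr j → ∃ c : Fin K → F.gr (n + j),
      ∀ k, S.sp (c k) = z * S.sp (e k) := by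
    intro j z hz
    have h1 : ∀ k, ∃ x ∈ F.gr (n + j), S.sp x = z * S.sp (e k) := fun k =>
      S.surj (n + j) (by omega) _ (by
        rw [mul_comm]
        exact SetLike.mul_mem_graded (S.gr n _ (e k).2) hz)
    choose x hx hx' using h1
    exact ⟨fun k => ⟨x k, hx k⟩, hx'⟩
  -- the kernel at `b0`
  have hker0 : ∀ (j r : ℕ) (hr : n + j + n = r) (c : Fin K → F.gr (n + j)),
      alY (F.fib b0) (n + j) n r hr (eb F e b0)
        ((fm F (Fin K) (n + j) (by omega)).pi b0 c) = 0 →
      ∃ z ∈ X.gr j, ∀ k, S.sp (c k) = z * S.sp (e k) := by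
    intro j r hr c hc
    refine fact2 X E (fun k => ⟨S.sp (e k), S.gr n _ (e k).2⟩) k0 hk0 hspanX
      (fun k => ⟨S.sp (c k), S.gr (n + j) _ (c k).2⟩) ?_
    intro k l
    show S.sp (c k) * S.sp (e l) = S.sp (c l) * S.sp (e k)
    have h1 : F.sp b0 (c k) * F.sp b0 (e l) - F.sp b0 (c l) * F.sp b0 (e k) = 0 :=
      congrArg Subtype.val (congrFun hc (k, l))
    have h2 : F.sp b0 ((c k : F.R) * e l - (c l : F.R) * e k) = 0 := by
      rw [map_sub, map_mul, map_mul]
      exact h1
    have h3 : (c k : F.R) * e l - (c l : F.R) * e k ∈ F.gr (n + j + n) :=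
      Submodule.sub_mem _ (SetLike.mul_mem_graded (c k).2 (e l).2)
        (SetLike.mul_mem_graded (c l).2 (e k).2)
    have h4 := (hSF _ (by omega) _ h3).1 h2
    rw [map_sub, map_mul, map_mul] at h4
    exact sub_eq_zero.1 h4
  -- equality of the values at `b0` in the two fibres
  have heq0 : ∀ (m : ℕ) (hm : F.n0 ≤ m) (c c' : Fin K → F.gr m),
      (fm F (Fin K) m hm).pi b0 c = (fm F (Fin K) m hm).pi b0 c' ↔
        ∀ k, S.sp (c k) = S.sp (c' k) := by
    intro m hm c c'
    constructor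
    · intro h k
      have h1 : F.sp b0 (c k) = F.sp b0 (c' k) := congrArg Subtype.val (congrFun h k)
      have h2 : F.sp b0 ((c k : F.R) - c' k) = 0 := by rw [map_sub, h1, sub_self]
      have h3 := (hSF m hm _ (Submodule.sub_mem _ (c k).2 (c' k).2)).1 h2
      rw [map_sub] at h3
      exact sub_eq_zero.1 h3
    · intro h
      funext k
      ext
      show F.sp b0 (c k) = F.sp b0 (c' k)
      have h2 : S.sp ((c k : F.R) - c' k) = 0 := by rw [map_sub, h k, sub_self]
      have h3 := (hSF m hm _ (Submodule.sub_mem _ (c k).2 (c' k).2)).2 h2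
      rw [map_sub] at h3
      exact sub_eq_zero.1 h3
  -- injectivity of `z ↦ z e_k` in the fibres near `b0`
  have hdimle : ∀ (j r : ℕ) (hr : n + j + n = r) (b : A →ₐ[ℂ] ℂ), b f0 ≠ 0 →
      Function.Injective ((mulE (F.fib b) j n (n + j) rfl (eb F e b)).codRestrict
        (LinearMap.ker (alY (F.fib b) (n + j) n r hr (eb F e b)))
        (mulE_mem (F.fib b) j n (n + j) r rfl hr (eb F e b))) := by
    intro j r hr b hb z z' hzz
    exact mulE_inj (F.fib b) j n (n + j) rfl (eb F e b) k0 (hf0' b hb)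
      (congrArg Subtype.val hzz)
  have hfinV : ∀ (m : ℕ) (hm : F.n0 ≤ m) (b : A →ₐ[ℂ] ℂ),
      Module.Finite ℂ (Fin K → (F.fib b).gr m) := by
    intro m hm b
    have := F.fin m hm
    exact fm_fin (fm F (Fin K) m hm) b
  -- the basis of the kernel at `b0` for `j = 1`
  choose c1 hc1 using fun i => hlift 1 (E.x i) (E.x_mem i)
  have hv_ind : LinearIndependent ℂ (fun i => (fm F (Fin K) (n + 1) hn1).pi b0 (c1 i)) := by
    rw [Fintype.linearIndependent_iff]
    intro lam hlam
    have h1 : (fm F (Fin K) (n + 1) hn1).pi b0 (∑ i, (algebraMap ℂ A (lam i)) • c1 i) =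
        (fm F (Fin K) (n + 1) hn1).pi b0 0 := by
      rw [map_zero, map_sum, ← hlam]
      refine Finset.sum_congr rfl fun i _ => ?_
      rw [FM.pi_smul]
      congr 1
      simp
    have h2 := (heq0 _ hn1 _ _).1 h1 k0
    have h3 : (∑ i, lam i • E.x i) * S.sp (e k0) = 0 := by
      have h4 : (((∑ i, (algebraMap ℂ A (lam i)) • c1 i : Fin K → F.gr (n + 1)) k0 : F.gr (n + 1))
          : F.R) = ∑ i, (algebraMap A F.R (algebraMap ℂ A (lam i))) * (c1 i k0 : F.R) := by
        rw [Finset.sum_apply, AddSubmonoidClass.coe_finsetSum]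
        refine Finset.sum_congr rfl fun i _ => ?_
        rw [Pi.smul_apply, Submodule.coe_smul, Algebra.smul_def]
      rw [h4] at h2
      simp only [map_sum, map_mul, S.alg, hc1, Pi.zero_apply, ZeroMemClass.coe_zero, map_zero]
        at h2
      rw [Finset.sum_mul, ← h2]
      refine Finset.sum_congr rfl fun i _ => ?_
      rw [Algebra.smul_def, mul_assoc]
      congr 2
      simp
    have h5 := (mul_eq_zero.1 h3).resolve_right hk0
    exact (Fintype.linearIndependent_iff.1 E.x_ind) lam h5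
  -- values of combinations of lifts
  have hcomb : ∀ (j : ℕ) (ι : Type) [Fintype ι] (z : ι → X.R) (c : ι → Fin K → F.gr (n + j))
      (_ : ∀ i k, S.sp (c i k) = z i * S.sp (e k)) (lam : ι → ℂ) (k : Fin K),
      S.sp ((∑ i, (algebraMap ℂ A (lam i)) • c i : Fin K → F.gr (n + j)) k) =
        (∑ i, lam i • z i) * S.sp (e k) := by
    intro j ι _ z c hc lam k
    have h4 : (((∑ i, (algebraMap ℂ A (lam i)) • c i : Fin K → F.gr (n + j)) k : F.gr (n + j))
        : F.R) = ∑ i, (algebraMap A F.R (algebraMap ℂ A (lam i))) * (c i k : F.R) := by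
      rw [Finset.sum_apply, AddSubmonoidClass.coe_finsetSum]
      refine Finset.sum_congr rfl fun i _ => ?_
      rw [Pi.smul_apply, Submodule.coe_smul, Algebra.smul_def]
    rw [h4, map_sum, Finset.sum_mul]
    refine Finset.sum_congr rfl fun i _ => ?_
    rw [map_mul, S.alg, hc, Algebra.smul_def, mul_assoc]
    congr 2
    simp
  have hpisum : ∀ (m : ℕ) (hm : F.n0 ≤ m) (ι : Type) [Fintype ι] (c : ι → Fin K → F.gr m)
      (lam : ι → ℂ), (fm F (Fin K) m hm).pi b0 (∑ i, (algebraMap ℂ A (lam i)) • c i) =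
        ∑ i, lam i • (fm F (Fin K) m hm).pi b0 (c i) := by
    intro m hm ι _ c lam
    rw [map_sum]
    refine Finset.sum_congr rfl fun i _ => ?_
    rw [FM.pi_smul]
    congr 1
    simp
  -- the kernel at `b0` is spanned by the values of the lifts
  have hspan0 : ∀ (j r : ℕ) (hr : n + j + n = r) (ι : Type) [Fintype ι] (z : ι → X.R)
      (_ : ∀ i, z i ∈ X.gr j) (_ : ∀ w ∈ X.gr j, w ∈ Submodule.span ℂ (Set.range z))
      (c : ι → Fin K → F.gr (n + j))
      (_ : ∀ i k, S.sp (c i k) = z i * S.sp (e k)),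
      Submodule.span ℂ (Set.range fun i => (fm F (Fin K) (n + j) (by omega)).pi b0 (c i)) =
        LinearMap.ker (alY (F.fib b0) (n + j) n r hr (eb F e b0)) := by
    intro j r hr ι _ z hz hzs c hc
    apply le_antisymm
    · rw [Submodule.span_le]
      rintro _ ⟨i, rfl⟩
      refine LinearMap.mem_ker.2 ?_
      refine (al_comm F (n + j) n r hr (by omega) (by omega) e b0 (c i)).trans ?_
      funext p
      ext
      show F.sp b0 ((c i p.1 : F.R) * e p.2 - (c i p.2 : F.R) * e p.1) = 0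
      have h3 : (c i p.1 : F.R) * e p.2 - (c i p.2 : F.R) * e p.1 ∈ F.gr (n + j + n) :=
        Submodule.sub_mem _ (SetLike.mul_mem_graded (c i p.1).2 (e p.2).2)
          (SetLike.mul_mem_graded (c i p.2).2 (e p.1).2)
      rw [hSF _ (by omega) _ h3, map_sub, map_mul, map_mul, hc, hc]
      ring
    · intro w hw
      rw [LinearMap.mem_ker] at hw
      obtain ⟨p, rfl⟩ := (fm F (Fin K) (n + j) (by omega)).surj b0 w
      obtain ⟨t, ht, ht'⟩ := hker0 j r hr p hw
      obtain ⟨lam, hlam⟩ := (Submodule.mem_span_range_iff_exists_fun ℂ).1 (hzs t ht)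
      refine (Submodule.mem_span_range_iff_exists_fun ℂ).2 ⟨lam, ?_⟩
      refine (hpisum _ _ ι c lam).symm.trans ?_
      refine (heq0 _ (by omega) _ _).2 fun k => ?_
      rw [hcomb j ι z c hc lam k, hlam, ht']
  have hker1 := hspan0 1 (n + 1 + n) rfl (Fin 12) E.x E.x_mem E.x_span c1 hc1
  have hrank0 : Module.finrank ℂ (LinearMap.ker (alY (F.fib b0) (n + 1) n (n + 1 + n) rfl
      (eb F e b0))) = 12 := by
    rw [← hker1]
    exact (finrank_span_eq_card hv_ind).trans (by simp)
  have hgr1 : ∀ b : A →ₐ[ℂ] ℂ, 12 ≤ Module.finrank ℂ ((F.fib b).gr 1) := h12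
  have hrank : ∀ b : A →ₐ[ℂ] ℂ, b f0 ≠ 0 →
      Module.finrank ℂ (LinearMap.ker (alY (F.fib b0) (n + 1) n (n + 1 + n) rfl (eb F e b0))) ≤
      Module.finrank ℂ (LinearMap.ker (alY (F.fib b) (n + 1) n (n + 1 + n) rfl (eb F e b))) := by
    intro b hb
    rw [hrank0]
    have := hfinV (n + 1) hn1 b
    exact (hgr1 b).trans (LinearMap.finrank_le_finrank_of_injective (hdimle 1 _ rfl b hb))
  have hp1 : Module.Projective A (Fin K → F.gr (n + 1)) := proj_pi
  have hp2 : Module.Projective A (Fin K × Fin K → F.gr (n + 1 + n)) := proj_pi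
  obtain ⟨f1, V, hf1, hV0, hVb0, hVb⟩ := hR A (Fin K → F.gr (n + 1))
    (Fin K × Fin K → F.gr (n + 1 + n)) (fm F (Fin K) (n + 1) hn1)
    (fm F (Fin K × Fin K) (n + 1 + n) hn3) (al F (n + 1) n (n + 1 + n) rfl e)
    (fun b => alY (F.fib b) (n + 1) n (n + 1 + n) rfl (eb F e b))
    (fun b p => al_comm F (n + 1) n (n + 1 + n) rfl hn1 hn3 e b p) b0 f0 hf0 hrank 12
    (fun i => (fm F (Fin K) (n + 1) hn1).pi b0 (c1 i)) hv_ind hker1
  have hp3 : Module.Projective A (Fin K → F.gr (n + 2)) := proj_pi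
  have hp4 : Module.Projective A (Fin K × Fin K → F.gr (n + 2 + n)) := proj_pi
  obtain ⟨f2, hf2, hf2'⟩ := hS A (Fin K → F.gr (n + 2))
    (Fin K × Fin K → F.gr (n + 2 + n)) (fm F (Fin K) (n + 2) hn2)
    (fm F (Fin K × Fin K) (n + 2 + n) hn4) (al F (n + 2) n (n + 2 + n) rfl e)
    (fun b => alY (F.fib b) (n + 2) n (n + 2 + n) rfl (eb F e b))
    (fun b p => al_comm F (n + 2) n (n + 2 + n) rfl hn2 hn4 e b p) b0
  -- the kernel at `b0` for `j = 2` has dimension at most `68`
  have hxx : ∀ p : J, E.x p.1.1 * E.x p.1.2 ∈ X.gr 2 := fun p =>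
    SetLike.mul_mem_graded (E.x_mem p.1.1) (E.x_mem p.1.2)
  choose c2 hc2 using fun p : J => hlift 2 (E.x p.1.1 * E.x p.1.2) (hxx p)
  have hker2 := hspan0 2 (n + 2 + n) rfl J (fun p => E.x p.1.1 * E.x p.1.2) hxx E.span2 c2 hc2
  have hk2 : Module.finrank ℂ (LinearMap.ker (alY (F.fib b0) (n + 2) n (n + 2 + n) rfl
      (eb F e b0))) ≤ 68 := by
    rw [← hker2]
    set w : J → (fm F (Fin K) (n + 2) hn2).V b0 :=
      fun p => (fm F (Fin K) (n + 2) hn2).pi b0 (c2 p) with hw
    have hΛ := LinearMap.finrank_range_add_finrank_ker (Fintype.linearCombination ℂ w)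
    have hcard : Module.finrank ℂ (J → ℂ) = 78 := by
      rw [Module.finrank_fintype_fun_eq_card]
      decide
    have h10 : Module.finrank ℂ (Submodule.span ℂ (Set.range E.q)) = 10 :=
      (finrank_span_eq_card E.q_ind).trans (by simp)
    have hle : Submodule.span ℂ (Set.range E.q) ≤
        LinearMap.ker (Fintype.linearCombination ℂ w) := by
      intro c hc
      rw [← E.q_rel] at hc
      rw [LinearMap.mem_ker, Fintype.linearCombination_apply]
      refine (hpisum _ _ J c2 c).symm.trans ?_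
      refine Eq.trans ((heq0 _ hn2 _ 0).2 fun k => ?_) (map_zero _)
      rw [hcomb 2 J (fun p => E.x p.1.1 * E.x p.1.2) c2 hc2 c k]
      have h1 : ∑ p : J, c p • (E.x p.1.1 * E.x p.1.2) = 0 := by
        rw [← hc, quad, map_sum]
        refine Finset.sum_congr rfl fun p _ => ?_
        rw [map_mul, map_mul, MvPolynomial.aeval_X, MvPolynomial.aeval_X,
          MvPolynomial.aeval_C, Algebra.smul_def]
      rw [h1, zero_mul]
      simp
    have hle' := Submodule.finrank_mono hle
    rw [Fintype.range_linearCombination] at hΛ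
    have hgoal : Module.finrank ℂ (Submodule.span ℂ (Set.range w)) ≤ 68 := by omega
    exact hgoal
  refine ⟨{
    n := n
    hn := hn
    u := e k0
    hu := (e k0).2
    y := fun i => V i k0
    hy := fun i => (V i k0).2
    u0 := hk0
    y0 := ?_
    div := ?_
    f := f0 * f1 * f2
    hf := ?_
    near := ?_
    two := ?_ }⟩
  · intro i
    rw [← hc1 i k0]
    exact (heq0 _ hn1 _ _).1 (hVb0 i) k0
  · intro i c hc
    obtain ⟨a, ha⟩ := hgen c hc
    refine ⟨∑ k, a k • (V i k : F.R), Submodule.sum_mem _ fun k _ =>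
      Submodule.smul_mem _ _ (V i k).2, ?_⟩
    rw [ha, Finset.mul_sum, Finset.mul_sum]
    refine Finset.sum_congr rfl fun k _ => ?_
    have h1 : (V i k0 : F.R) * e k - (V i k : F.R) * e k0 = 0 :=
      congrArg Subtype.val (congrFun (hV0 i) (k0, k))
    rw [mul_smul_comm, mul_smul_comm, sub_eq_zero.1 h1, mul_comm]
  · rw [map_mul, map_mul]
    exact mul_ne_zero (mul_ne_zero hf0 hf1) hf2
  · intro b hb
    rw [map_mul, map_mul] at hb
    have hb0 : b f0 ≠ 0 := fun h => hb (by rw [h, zero_mul, zero_mul])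
    have hb1 : b f1 ≠ 0 := fun h => hb (by rw [h, mul_zero, zero_mul])
    obtain ⟨hi, hs⟩ := hVb b hb1
    have hfr : Module.finrank ℂ (LinearMap.ker (alY (F.fib b) (n + 1) n (n + 1 + n) rfl
        (eb F e b))) = 12 := by
      have h := finrank_span_eq_card hi
      rw [hs] at h
      exact h.trans (by simp)
    have hfV := hfinV (n + 1) hn1 b
    have hz : ∀ i, ∃ z : (F.fib b).gr 1, mulE (F.fib b) 1 n (n + 1) rfl (eb F e b) z =
        (fm F (Fin K) (n + 1) hn1).pi b (V i) := by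
      intro i
      have hmem : (fm F (Fin K) (n + 1) hn1).pi b (V i) ∈
          LinearMap.ker (alY (F.fib b) (n + 1) n (n + 1 + n) rfl (eb F e b)) := by
        have h : (fm F (Fin K) (n + 1) hn1).pi b (V i) ∈ Submodule.span ℂ
          (Set.range fun i => (fm F (Fin K) (n + 1) hn1).pi b (V i)) :=
            Submodule.subset_span ⟨i, rfl⟩
        rw [hs] at h
        exact h
      exact mulE_surj (F.fib b) 1 n (n + 1) (n + 1 + n) rfl rfl (eb F e b) k0 (hf0' b hb0) hfV
        (hfr ▸ hgr1 b) _ hmem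
    choose z hz using hz
    refine ⟨hf0' b hb0, fun i => z i, fun i => (z i).2, ?_, fun i => ?_⟩
    · have h1 : LinearIndependent ℂ
          (fun i => mulE (F.fib b) 1 n (n + 1) rfl (eb F e b) (z i)) := by
        have h2 : (fun i => mulE (F.fib b) 1 n (n + 1) rfl (eb F e b) (z i)) =
            fun i => (fm F (Fin K) (n + 1) hn1).pi b (V i) := funext hz
        rw [h2]
        exact hi
      have h3 : LinearIndependent ℂ z :=
        LinearIndependent.of_comp (mulE (F.fib b) 1 n (n + 1) rfl (eb F e b)) h1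
      exact h3.map' (Submodule.subtype _) (Submodule.ker_subtype _)
    · exact (congrArg Subtype.val (congrFun (hz i) k0)).symm
  · intro b hb
    rw [map_mul, map_mul] at hb
    have hb0 : b f0 ≠ 0 := fun h => hb (by rw [h, zero_mul, zero_mul])
    have hb2 : b f2 ≠ 0 := fun h => hb (by rw [h, mul_zero])
    have hfV := hfinV (n + 2) hn2 b
    have hψ := hdimle 2 _ rfl b hb0
    have hf1 : Module.Finite ℂ ((F.fib b).gr 2) := Module.Finite.of_injective _ hψ
    exact ⟨hf1, (LinearMap.finrank_le_finrank_of_injective hψ).trans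
      ((hf2' b hb2).2.trans hk2)⟩

end Pool.Agent.Helper31.RG
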