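import Pool.Agent.Helper31.RG.Defs
import Pool.Agent.Helper40.MobDefs

/-!
Project RG: the C*-algebraic statement.
-/

open Finset Filter Topology

namespace Pool.Agent.Helper31.RG

open Pool.Agent.Helper40.Mob

universe u

/-- Rigidity implies Moebius disjointness in norm, in almost all short intervals. -/
def RG_CST : Prop := ∀ (A : Type u) [CStarAlgebra A] (α : A →⋆ₐ[ℂ] A) (u : A),
  (∀ φ : A →L[ℂ] ℂ, IsState φ → (∀ a, φ (α a) = φ a) →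
    ∃ C : ℝ, ∀ ε : ℝ, 0 < ε → ∃ᶠ n : ℕ in atTop, ∃ q : ℕ, 1 ≤ q ∧
      ∑ p ∈ q.primeFactors.filter (fun p : ℕ => Real.log n < p), 1 / (p : ℝ) ≤ C ∧
      ∑ j ∈ range n, ‖φ (star (α^[q * j] u - u) * (α^[q * j] u - u))‖ ≤ ε * n) →
  ∀ δ : ℝ, 0 < δ → ∀ᶠ H : ℕ in atTop, ∀ᶠ N : ℕ in atTop,
    ∑ m ∈ range N, ‖∑ h ∈ range H, (ArithmeticFunction.moebius (m + h) : ℂ) • α^[h] u‖ ≤
      δ * (H * N)

end Pool.Agent.Helper31.RG
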